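import Mathlib

set_option linter.unusedSectionVars false
set_option linter.unusedSimpArgs false
set_option linter.unusedVariables false

/-! Circles enclosing lattice points: definitions, finiteness and the local structure of the
counting function. -/

namespace Pool.Agent.MCG

open Filter Topology

/-- The squared distance from the lattice point `p` to the centre `c`. -/
noncomputable def d2 (c : ℝ × ℝ) (p : ℤ × ℤ) : ℝ := ((p.1 : ℝ) - c.1) ^ 2 + ((p.2 : ℝ) - c.2) ^ 2

/-- The lattice points in the open disc with centre `c` and radius `R`. -/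
def inside (c : ℝ × ℝ) (R : ℝ) : Set (ℤ × ℤ) := {p | d2 c p < R ^ 2}

/-- The lattice points on the circle with centre `c` and radius `R`. -/
def onCircle (c : ℝ × ℝ) (R : ℝ) : Set (ℤ × ℤ) := {p | d2 c p = R ^ 2}

/-- The number of lattice points in the open disc. -/
noncomputable def count (c : ℝ × ℝ) (R : ℝ) : ℕ := (inside c R).ncard

/-- There is an `n`-enclosing circle of radius `R`. -/
def Enc (n : ℕ) (R : ℝ) : Prop := 0 < R ∧ ∃ c : ℝ × ℝ, count c R = n

/-- The supremum `R_n` of the radii of the `n`-enclosing circles. -/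
noncomputable def Rn (n : ℕ) : ℝ := sSup {R : ℝ | Enc n R}

/-- `n` is MC: some `n`-enclosing circle has radius `R_n`. -/
def MC (n : ℕ) : Prop := Enc n (Rn n)

theorem closed_finite (c : ℝ × ℝ) (R : ℝ) : {p : ℤ × ℤ | d2 c p ≤ R ^ 2}.Finite := by
  have h : {p : ℤ × ℤ | d2 c p ≤ R ^ 2} ⊆
      (Set.Icc (⌈c.1 - |R|⌉) (⌊c.1 + |R|⌋)) ×ˢ (Set.Icc (⌈c.2 - |R|⌉) (⌊c.2 + |R|⌋)) := by
    intro p hp
    have hp' : ((p.1 : ℝ) - c.1) ^ 2 + ((p.2 : ℝ) - c.2) ^ 2 ≤ R ^ 2 := hp
    have h1 : ((p.1 : ℝ) - c.1) ^ 2 ≤ R ^ 2 := by nlinarith [sq_nonneg ((p.2 : ℝ) - c.2)]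
    have h2 : ((p.2 : ℝ) - c.2) ^ 2 ≤ R ^ 2 := by nlinarith [sq_nonneg ((p.1 : ℝ) - c.1)]
    have h3 := abs_le.mp (sq_le_sq.mp h1)
    have h4 := abs_le.mp (sq_le_sq.mp h2)
    simp only [Set.mem_prod, Set.mem_Icc, Int.ceil_le, Int.le_floor]
    constructor <;> constructor <;> linarith [h3.1, h3.2, h4.1, h4.2]
  exact ((Set.finite_Icc _ _).prod (Set.finite_Icc _ _)).subset h

theorem inside_finite (c : ℝ × ℝ) (R : ℝ) : (inside c R).Finite :=
  by
  apply (closed_finite c R).subset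
  intro p hp
  have : d2 c p < R ^ 2 := hp
  exact le_of_lt this

theorem onCircle_finite (c : ℝ × ℝ) (R : ℝ) : (onCircle c R).Finite :=
  by
  apply (closed_finite c R).subset
  intro p hp
  have : d2 c p = R ^ 2 := hp
  exact le_of_eq this

theorem count_mono (c : ℝ × ℝ) {R S : ℝ} (hR : 0 ≤ R) (h : R ≤ S) : count c R ≤ count c S := by
  apply Set.ncard_le_ncard _ (inside_finite c S)
  intro p hp
  have h1 : d2 c p < R ^ 2 := hp
  have h2 : R ^ 2 ≤ S ^ 2 := by nlinarith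
  exact lt_of_lt_of_le h1 h2

theorem continuous_d2 (p : ℤ × ℤ) : Continuous fun c : ℝ × ℝ => d2 c p := by
  unfold d2
  fun_prop

/-- Local structure: near `(c, R)` the enclosed points contain the old ones and are among the
points of the old closed disc. -/
theorem local_struct (c : ℝ × ℝ) (R : ℝ) :
    ∀ᶠ q : (ℝ × ℝ) × ℝ in 𝓝 (c, R), inside c R ⊆ inside q.1 q.2 ∧
      inside q.1 q.2 ⊆ inside c R ∪ onCircle c R := by
  have hcont : ∀ p : ℤ × ℤ, Continuous fun q : (ℝ × ℝ) × ℝ => d2 q.1 p - q.2 ^ 2 := by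
    intro p
    exact ((continuous_d2 p).comp continuous_fst).sub (continuous_snd.pow 2)
  have h1 : ∀ᶠ q : (ℝ × ℝ) × ℝ in 𝓝 (c, R), ∀ p ∈ inside c R, d2 q.1 p - q.2 ^ 2 < 0 := by
    rw [Filter.eventually_all_finite (inside_finite c R)]
    intro p hp
    have : (fun q : (ℝ × ℝ) × ℝ => d2 q.1 p - q.2 ^ 2) (c, R) < 0 := by
      have : d2 c p < R ^ 2 := hp
      simpa using this
    exact (hcont p).continuousAt.eventually_lt_const this
  -- a large ball
  set B : Set (ℤ × ℤ) := {p | d2 c p ≤ (|R| + 3) ^ 2} with hB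
  have hBfin : B.Finite := closed_finite c _
  have h2 : ∀ᶠ q : (ℝ × ℝ) × ℝ in 𝓝 (c, R), ∀ p ∈ {p ∈ B | R ^ 2 < d2 c p},
      0 < d2 q.1 p - q.2 ^ 2 := by
    rw [Filter.eventually_all_finite (hBfin.subset (Set.sep_subset _ _))]
    intro p hp
    have : 0 < (fun q : (ℝ × ℝ) × ℝ => d2 q.1 p - q.2 ^ 2) (c, R) := by
      have : R ^ 2 < d2 c p := hp.2
      simpa using this
    exact (hcont p).continuousAt.eventually_const_lt this
  have h3 : ∀ᶠ q : (ℝ × ℝ) × ℝ in 𝓝 (c, R), |q.1.1 - c.1| < 1 ∧ |q.1.2 - c.2| < 1 ∧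
      |q.2 - R| < 1 := by
    have e1 : ∀ᶠ q : (ℝ × ℝ) × ℝ in 𝓝 (c, R), |q.1.1 - c.1| < 1 := by
      have hc : Continuous fun q : (ℝ × ℝ) × ℝ => |q.1.1 - c.1| := by fun_prop
      exact hc.continuousAt.eventually_lt_const (by simp)
    have e2 : ∀ᶠ q : (ℝ × ℝ) × ℝ in 𝓝 (c, R), |q.1.2 - c.2| < 1 := by
      have hc : Continuous fun q : (ℝ × ℝ) × ℝ => |q.1.2 - c.2| := by fun_prop
      exact hc.continuousAt.eventually_lt_const (by simp)
    have e3 : ∀ᶠ q : (ℝ × ℝ) × ℝ in 𝓝 (c, R), |q.2 - R| < 1 := by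
      have hc : Continuous fun q : (ℝ × ℝ) × ℝ => |q.2 - R| := by fun_prop
      exact hc.continuousAt.eventually_lt_const (by simp)
    exact e1.and (e2.and e3)
  filter_upwards [h1, h2, h3] with q g1 g2 g3
  constructor
  · intro p hp
    have := g1 p hp
    show d2 q.1 p < q.2 ^ 2
    linarith
  · intro p hp
    have hp' : d2 q.1 p < q.2 ^ 2 := hp
    have hpB : p ∈ B := by
      have hq2 : |q.2| ≤ |R| + 1 := by
        have := abs_sub_abs_le_abs_sub q.2 R
        linarith [g3.2.2]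
      have hle : d2 q.1 p ≤ (|R| + 1) ^ 2 := by
        have : q.2 ^ 2 ≤ (|R| + 1) ^ 2 := by
          rw [← sq_abs q.2]
          nlinarith [abs_nonneg q.2, abs_nonneg R]
        linarith
      show d2 c p ≤ (|R| + 3) ^ 2
      unfold d2 at hle ⊢
      obtain ⟨k1, k2, -⟩ := g3
      rw [abs_lt] at k1 k2
      have hR := abs_nonneg R
      set x := (p.1 : ℝ) - q.1.1
      set y := (p.2 : ℝ) - q.1.2
      have e1 : (p.1 : ℝ) - c.1 = x + (q.1.1 - c.1) := by simp only [x]; ring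
      have e2 : (p.2 : ℝ) - c.2 = y + (q.1.2 - c.2) := by simp only [y]; ring
      rw [e1, e2]
      set u := q.1.1 - c.1
      set v := q.1.2 - c.2
      -- (x+u)^2+(y+v)^2 ≤ (sqrt(x^2+y^2)+sqrt(u^2+v^2))^2
      have hu : u ^ 2 < 1 := by nlinarith
      have hv : v ^ 2 < 1 := by nlinarith
      have hcs : (x * u + y * v) ^ 2 ≤ (x ^ 2 + y ^ 2) * (u ^ 2 + v ^ 2) := by
        nlinarith [sq_nonneg (x * v - y * u)]
      have hcs2 : (x * u + y * v) ^ 2 ≤ ((|R| + 1) * 2) ^ 2 := by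
        have : (x ^ 2 + y ^ 2) * (u ^ 2 + v ^ 2) ≤ (|R| + 1) ^ 2 * 4 := by
          apply mul_le_mul hle (by linarith) (by positivity) (by positivity)
        nlinarith
      have hcs3 : x * u + y * v ≤ (|R| + 1) * 2 := by
        have := abs_le_of_sq_le_sq hcs2 (by positivity)
        linarith [le_abs_self (x * u + y * v)]
      nlinarith
    by_contra hcon
    simp only [Set.mem_union, not_or] at hcon
    have hgt : R ^ 2 < d2 c p := by
      rcases lt_trichotomy (d2 c p) (R ^ 2) with h | h | h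
      · exact absurd h hcon.1
      · exact absurd h hcon.2
      · exact h
    have := g2 p ⟨hpB, hgt⟩
    linarith

/-- Translation invariance. -/
theorem count_translate (c : ℝ × ℝ) (R : ℝ) (a b : ℤ) :
    count (c.1 + a, c.2 + b) R = count c R := by
  unfold count
  have : inside (c.1 + a, c.2 + b) R = (fun p : ℤ × ℤ => (p.1 + a, p.2 + b)) '' inside c R := by
    ext p
    simp only [inside, Set.mem_ofPred_eq, Set.mem_image, d2]
    constructor
    · intro h
      refine ⟨(p.1 - a, p.2 - b), ?_, by simp⟩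
      push_cast
      convert h using 2 <;> ring
    · rintro ⟨q, hq, rfl⟩
      push_cast
      convert hq using 2 <;> ring
  rw [this, Set.ncard_image_of_injective]
  intro p q h
  simp only [Prod.mk.injEq, add_left_inj] at h
  exact Prod.ext h.1 h.2

theorem count_lower (c : ℝ × ℝ) {R : ℝ} {n : ℕ} (hR : (n : ℝ) + 2 ≤ R) : n + 1 ≤ count c R := by
  -- the points (⌊c.1⌋ + i, ⌊c.2⌋), 0 ≤ i ≤ n
  have hsub : (fun i : ℕ => ((⌊c.1⌋ + (i : ℤ), ⌊c.2⌋) : ℤ × ℤ)) '' (Set.Iio (n + 1)) ⊆ inside c R := by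
    rintro p ⟨i, hi, rfl⟩
    have hi' : (i : ℝ) ≤ n := by
      have : i ≤ n := Nat.lt_succ_iff.mp hi
      exact_mod_cast this
    show ((((⌊c.1⌋ + (i : ℤ) : ℤ)) : ℝ) - c.1) ^ 2 + (((⌊c.2⌋ : ℤ) : ℝ) - c.2) ^ 2 < R ^ 2
    push_cast
    have h1 := Int.floor_le c.1
    have h2 := Int.lt_floor_add_one c.1
    have h3 := Int.floor_le c.2
    have h4 := Int.lt_floor_add_one c.2
    have h5 : (0 : ℝ) ≤ i := Nat.cast_nonneg i
    have h6 : (((⌊c.2⌋ : ℤ) : ℝ) - c.2) ^ 2 ≤ 1 := by nlinarith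
    have h7 : ((⌊c.1⌋ : ℝ) + i - c.1) ^ 2 ≤ ((n : ℝ) + 1) ^ 2 := by
      apply sq_le_sq'
      · linarith
      · linarith
    have h8 : ((n : ℝ) + 2) ^ 2 ≤ R ^ 2 := by
      have : (0 : ℝ) ≤ n := Nat.cast_nonneg n
      nlinarith
    have : (0 : ℝ) ≤ n := Nat.cast_nonneg n
    nlinarith
  have h := Set.ncard_le_ncard hsub (inside_finite c R)
  rw [Set.ncard_image_of_injective] at h
  · have e : (Set.Iio (n + 1) : Set ℕ).ncard = n + 1 := by
      rw [← Finset.coe_range, Set.ncard_coe_finset, Finset.card_range]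
    rw [e] at h
    exact h
  · intro i j hij
    simp only [Prod.mk.injEq, add_right_inj, Nat.cast_inj, and_true] at hij
    exact hij

theorem enc_bound {n : ℕ} {R : ℝ} (h : Enc n R) : R < n + 2 := by
  by_contra hcon
  push Not at hcon
  obtain ⟨-, c, hc⟩ := h
  have := count_lower c hcon
  omega

theorem bddAbove (n : ℕ) : BddAbove {R : ℝ | Enc n R} :=
  ⟨n + 2, fun _ hR => le_of_lt (enc_bound hR)⟩

end Pool.Agent.MCG
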