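import Mathlib

set_option linter.unusedSectionVars false
set_option linter.unusedSimpArgs false
set_option linter.unusedVariables false

/-! The number of Gaussian integers of a given norm is at most a power of the number of
divisors. -/

namespace Pool.Agent.MCG

/-- The Gaussian integers of norm `M`. -/
def G (M : ℕ) : Set GaussianInt := {z | z.norm = (M : ℤ)}

theorem norm_form (z : GaussianInt) : z.norm = z.re * z.re + z.im * z.im := by
  rw [Zsqrtd.norm_def]; ring

theorem G_finite (M : ℕ) : (G M).Finite := by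
  have hinj : Function.Injective (fun z : GaussianInt => (z.re, z.im)) := by
    intro z w h
    simp only [Prod.mk.injEq] at h
    exact Zsqrtd.ext h.1 h.2
  have : G M ⊆ (fun z : GaussianInt => (z.re, z.im)) ⁻¹' (Set.Icc (-(M : ℤ)) M ×ˢ Set.Icc (-(M : ℤ)) M) := by
    intro z hz
    have hz' : z.norm = (M : ℤ) := hz
    rw [norm_form] at hz'
    have h0 : (0 : ℤ) ≤ M := by positivity
    have h1 : |z.re| ≤ M := by
      have : |z.re| ≤ |z.re| * |z.re| := by
        rcases eq_or_ne z.re 0 with h | h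
        · simp [h]
        · have : 1 ≤ |z.re| := Int.one_le_abs h
          nlinarith
      rw [abs_mul_abs_self] at this
      nlinarith [mul_self_nonneg z.im]
    have h2 : |z.im| ≤ M := by
      have : |z.im| ≤ |z.im| * |z.im| := by
        rcases eq_or_ne z.im 0 with h | h
        · simp [h]
        · have : 1 ≤ |z.im| := Int.one_le_abs h
          nlinarith
      rw [abs_mul_abs_self] at this
      nlinarith [mul_self_nonneg z.re]
    exact ⟨⟨(abs_le.mp h1).1, (abs_le.mp h1).2⟩, ⟨(abs_le.mp h2).1, (abs_le.mp h2).2⟩⟩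
  exact (((Set.finite_Icc _ _).prod (Set.finite_Icc _ _)).preimage hinj.injOn).subset this

theorem natAbs_norm_of_mem {M : ℕ} {z : GaussianInt} (hz : z ∈ G M) : z.norm.natAbs = M := by
  have hz' : z.norm = (M : ℤ) := hz
  rw [hz']; simp

theorem mem_of_natAbs {M : ℕ} {z : GaussianInt} (hz : z.norm.natAbs = M) : z ∈ G M := by
  show z.norm = (M : ℤ)
  have h0 : 0 ≤ z.norm := by rw [norm_form]; nlinarith [mul_self_nonneg z.re, mul_self_nonneg z.im]
  rw [← hz]
  exact (Int.natAbs_of_nonneg h0).symm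

theorem G_one_card : (G 1).ncard ≤ 9 := by
  have : (fun z : GaussianInt => (z.re, z.im)) '' G 1 ⊆
      ((Finset.Icc (-1 : ℤ) 1 ×ˢ Finset.Icc (-1 : ℤ) 1 : Finset (ℤ × ℤ)) : Set (ℤ × ℤ)) := by
    rintro p ⟨z, hz, rfl⟩
    have hz' : z.norm = ((1 : ℕ) : ℤ) := hz
    rw [norm_form] at hz'
    push_cast at hz'
    simp only [Finset.coe_product, Finset.coe_Icc, Set.mem_prod, Set.mem_Icc]
    refine ⟨⟨?_, ?_⟩, ?_, ?_⟩ <;> nlinarith [mul_self_nonneg z.re, mul_self_nonneg z.im]
  have h := Set.ncard_le_ncard this (Finset.finite_toSet _)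
  rw [Set.ncard_coe_finset] at h
  rw [Set.ncard_image_of_injective] at h
  · refine h.trans ?_
    decide
  · intro z w h
    simp only [Prod.mk.injEq] at h
    exact Zsqrtd.ext h.1 h.2

theorem dvd_of_mem {M : ℕ} {z : GaussianInt} (hz : z ∈ G M) : z ∣ (M : GaussianInt) := by
  have hz' : z.norm = (M : ℤ) := hz
  refine ⟨star z, ?_⟩
  have := Zsqrtd.norm_eq_mul_conj z
  rw [hz'] at this
  rw [← this]
  push_cast
  rfl

theorem natAbs_norm_dvd {z w : GaussianInt} (h : z ∣ w) : z.norm.natAbs ∣ w.norm.natAbs := by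
  obtain ⟨k, rfl⟩ := h
  rw [Zsqrtd.norm_mul, Int.natAbs_mul]
  exact dvd_mul_right _ _

theorem natAbs_norm_natCast (a : ℕ) : ((a : GaussianInt)).norm.natAbs = a ^ 2 := by
  rw [Zsqrtd.norm_natCast, Int.natAbs_mul, Int.natAbs_natCast, sq]

theorem G_mul {a b : ℕ} (ha : 0 < a) (hb : 0 < b) (hab : Nat.Coprime a b) :
    (G (a * b)).ncard ≤ (G a).ncard * (G b).ncard := by
  have hsub : G (a * b) ⊆ (fun x : GaussianInt × GaussianInt => x.1 * x.2) '' (G a ×ˢ G b) := by
    intro z hz
    have h1 : z ∣ (a : GaussianInt) * (b : GaussianInt) := by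
      have := dvd_of_mem hz
      push_cast at this
      exact this
    obtain ⟨u, w, hu, hw, rfl⟩ := exists_dvd_and_dvd_of_dvd_mul h1
    have hN : (u * w).norm.natAbs = a * b := natAbs_norm_of_mem hz
    rw [Zsqrtd.norm_mul, Int.natAbs_mul] at hN
    have h2 := natAbs_norm_dvd hu
    have h3 := natAbs_norm_dvd hw
    rw [natAbs_norm_natCast] at h2 h3
    set x := u.norm.natAbs
    set y := w.norm.natAbs
    have c1 : Nat.Coprime x b := Nat.Coprime.coprime_dvd_left h2 (Nat.Coprime.pow_left 2 hab)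
    have c2 : Nat.Coprime y a := Nat.Coprime.coprime_dvd_left h3 (Nat.Coprime.pow_left 2 hab.symm)
    have d1 : x ∣ a := c1.dvd_of_dvd_mul_right (Dvd.intro _ hN)
    have d2 : y ∣ b := c2.dvd_of_dvd_mul_left (Dvd.intro_left _ hN)
    have e1 := Nat.le_of_dvd ha d1
    have e2 := Nat.le_of_dvd hb d2
    have hx : x = a := by
      by_contra hne
      have : x < a := lt_of_le_of_ne e1 hne
      have : x * y < a * b := Nat.mul_lt_mul_of_lt_of_le this e2 hb
      omega
    have hy : y = b := by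
      by_contra hne
      have : y < b := lt_of_le_of_ne e2 hne
      have : x * y < a * b := Nat.mul_lt_mul_of_le_of_lt e1 this ha
      omega
    exact ⟨(u, w), ⟨mem_of_natAbs hx, mem_of_natAbs hy⟩, rfl⟩
  calc (G (a * b)).ncard ≤ ((fun x : GaussianInt × GaussianInt => x.1 * x.2) '' (G a ×ˢ G b)).ncard :=
        Set.ncard_le_ncard hsub (((G_finite a).prod (G_finite b)).image _)
    _ ≤ (G a ×ˢ G b).ncard := Set.ncard_image_le ((G_finite a).prod (G_finite b))
    _ = (G a).ncard * (G b).ncard := Set.ncard_prod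

theorem prime_of_norm {p : ℕ} (hp : p.Prime) {a : GaussianInt} (ha : a.norm.natAbs = p) :
    Prime a := by
  rw [← irreducible_iff_prime]
  constructor
  · intro hu
    rw [← Zsqrtd.norm_eq_one_iff] at hu
    rw [hu] at ha
    exact hp.one_lt.ne ha
  · intro c d hcd
    rw [hcd, Zsqrtd.norm_mul, Int.natAbs_mul] at ha
    rcases (Nat.prime_mul_iff.mp (ha ▸ hp)) with h | h
    · right
      rw [← Zsqrtd.norm_eq_one_iff]; exact h.2
    · left
      rw [← Zsqrtd.norm_eq_one_iff]; exact h.2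

theorem exists_factor {p : ℕ} (hp : p.Prime) : ∃ a b : GaussianInt, (p : GaussianInt) = a * b ∧
    Prime a ∧ (Prime b ∨ IsUnit b) := by
  by_cases h : Irreducible (p : GaussianInt)
  · exact ⟨p, 1, by simp, h.prime, Or.inr isUnit_one⟩
  · have hnu : ¬ IsUnit (p : GaussianInt) := by
      rw [← Zsqrtd.norm_eq_one_iff, natAbs_norm_natCast]
      have := hp.one_lt
      nlinarith
    rw [irreducible_iff] at h
    push Not at h
    obtain ⟨a, b, hab, ha, hb⟩ := h hnu
    have hN := natAbs_norm_natCast p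
    rw [hab, Zsqrtd.norm_mul, Int.natAbs_mul] at hN
    have ha1 : a.norm.natAbs ≠ 1 := by
      intro h; exact ha (Zsqrtd.norm_eq_one_iff.mp h)
    have hb1 : b.norm.natAbs ≠ 1 := by
      intro h; exact hb (Zsqrtd.norm_eq_one_iff.mp h)
    obtain ⟨h1, h2⟩ := (Nat.Prime.mul_eq_prime_sq_iff hp ha1 hb1).mp hN
    exact ⟨a, b, hab, prime_of_norm hp h1, Or.inl (prime_of_norm hp h2)⟩

theorem G_prime_pow {p : ℕ} (hp : p.Prime) (e : ℕ) : (G (p ^ e)).ncard ≤ 9 * (e + 1) ^ 2 := by
  obtain ⟨a, b, hab, ha, hb⟩ := exists_factor hp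
  have hsub : G (p ^ e) ⊆ (fun x : GaussianInt × (ℕ × ℕ) => x.1 * a ^ x.2.1 * b ^ x.2.2) ''
      (G 1 ×ˢ (Set.Iic e ×ˢ Set.Iic e)) := by
    intro z hz
    have h1 : z ∣ a ^ e * b ^ e := by
      have := dvd_of_mem hz
      push_cast at this
      rw [hab, mul_pow] at this
      exact this
    obtain ⟨u, w, hu, hw, rfl⟩ := exists_dvd_and_dvd_of_dvd_mul h1
    obtain ⟨i, hi, hui⟩ := (dvd_prime_pow ha e).mp hu
    obtain ⟨ε, hε⟩ := hui.symm
    have hunit : ∀ x : GaussianIntˣ, (x : GaussianInt) ∈ G 1 := by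
      intro x
      exact mem_of_natAbs (Zsqrtd.norm_eq_one_iff.mpr x.isUnit)
    rcases hb with hb | hb
    · obtain ⟨j, hj, hwj⟩ := (dvd_prime_pow hb e).mp hw
      obtain ⟨δ, hδ⟩ := hwj.symm
      refine ⟨(((ε * δ : GaussianIntˣ) : GaussianInt), (i, j)), ⟨hunit (ε * δ), hi, hj⟩, ?_⟩
      simp only [← hε, ← hδ]
      push_cast
      ring
    · have hwu : IsUnit w := isUnit_of_dvd_unit hw (hb.pow e)
      obtain ⟨δ, hδ⟩ := hwu
      refine ⟨(((ε * δ : GaussianIntˣ) : GaussianInt), (i, 0)), ⟨hunit (ε * δ), hi, Nat.zero_le _⟩, ?_⟩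
      simp only [← hε, ← hδ]
      push_cast
      ring
  have hfin : (G 1 ×ˢ (Set.Iic e ×ˢ Set.Iic e)).Finite :=
    (G_finite 1).prod ((Set.finite_Iic e).prod (Set.finite_Iic e))
  have hI : (Set.Iic e : Set ℕ).ncard = e + 1 := by
    have : (Set.Iic e : Set ℕ) = ((Finset.range (e + 1) : Finset ℕ) : Set ℕ) := by
      ext x; simp [Nat.lt_succ_iff]
    rw [this, Set.ncard_coe_finset, Finset.card_range]
  calc (G (p ^ e)).ncard ≤ _ := Set.ncard_le_ncard hsub (hfin.image _)
    _ ≤ (G 1 ×ˢ (Set.Iic e ×ˢ Set.Iic e)).ncard := Set.ncard_image_le hfin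
    _ = (G 1).ncard * ((e + 1) * (e + 1)) := by rw [Set.ncard_prod, Set.ncard_prod, hI]
    _ ≤ 9 * (e + 1) ^ 2 := by
        rw [sq]
        exact Nat.mul_le_mul_right _ G_one_card

theorem G_le (M : ℕ) (hM : 0 < M) : (G M).ncard ≤ 9 * M.divisors.card ^ 6 := by
  have key : ∀ M : ℕ, 1 < M → (G M).ncard ≤ M.divisors.card ^ 6 := by
    intro M
    induction M using Nat.recOnPosPrimePosCoprime with
    | prime_pow p n hp hn =>
      intro _
      refine (G_prime_pow hp n).trans ?_
      rw [Nat.divisors_prime_pow hp, Finset.card_map, Finset.card_range]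
      have h1 : 2 ≤ n + 1 := by omega
      have h2 : 9 ≤ (n + 1) ^ 4 := by
        calc 9 ≤ 2 ^ 4 := by norm_num
          _ ≤ (n + 1) ^ 4 := Nat.pow_le_pow_left h1 4
      calc 9 * (n + 1) ^ 2 ≤ (n + 1) ^ 4 * (n + 1) ^ 2 := Nat.mul_le_mul_right _ h2
        _ = (n + 1) ^ 6 := by ring
    | zero => intro h; omega
    | one => intro h; omega
    | coprime a b ha hb hab iha ihb =>
      intro _
      refine (G_mul (by omega) (by omega) hab).trans ?_
      rw [hab.card_divisors_mul, mul_pow]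
      exact Nat.mul_le_mul (iha ha) (ihb hb)
  rcases Nat.lt_or_ge 1 M with h | h
  · exact (key M h).trans (Nat.le_mul_of_pos_left _ (by norm_num))
  · have : M = 1 := by omega
    subst this
    simpa using G_one_card

end Pool.Agent.MCG
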