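import Pool.Agent.MCG.Basic
import Pool.Agent.MCG.Gauss
import Pool.Agent.LangUnit.NT1

set_option linter.unusedSectionVars false
set_option linter.unusedSimpArgs false
set_option linter.unusedVariables false

/-! The number of lattice points on a circle with an arbitrary centre. -/

namespace Pool.Agent.MCG

theorem sq_add_zero {a b : ℝ} (h : a ^ 2 + b ^ 2 = 0) : a = 0 ∧ b = 0 := by
  constructor <;> nlinarith [sq_nonneg a, sq_nonneg b]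

theorem lin_eq (p1 p2 q1 q2 c1 c2 R : ℝ) (hp : (p1 - c1) ^ 2 + (p2 - c2) ^ 2 = R ^ 2)
    (hq : (q1 - c1) ^ 2 + (q2 - c2) ^ 2 = R ^ 2) :
    2 * ((q1 - p1) * (p1 - c1) + (q2 - p2) * (p2 - c2)) = -((q1 - p1) ^ 2 + (q2 - p2) ^ 2) := by
  linear_combination hq - hp

theorem diff_le (p1 p2 q1 q2 c1 c2 R : ℝ) (hp : (p1 - c1) ^ 2 + (p2 - c2) ^ 2 = R ^ 2)
    (hq : (q1 - c1) ^ 2 + (q2 - c2) ^ 2 = R ^ 2) :
    (q1 - p1) ^ 2 + (q2 - p2) ^ 2 ≤ 4 * R ^ 2 := by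
  nlinarith [sq_nonneg ((q1 - c1) + (p1 - c1)), sq_nonneg ((q2 - c2) + (p2 - c2))]

theorem det_sq_le {v1 v2 w1 w2 R : ℝ} (hva : v1 ^ 2 + v2 ^ 2 ≤ 4 * R ^ 2)
    (hwa : w1 ^ 2 + w2 ^ 2 ≤ 4 * R ^ 2) : (2 * (v1 * w2 - v2 * w1)) ^ 2 ≤ 64 * R ^ 4 := by
  have h1 : (v1 * w2 - v2 * w1) ^ 2 ≤ (v1 ^ 2 + v2 ^ 2) * (w1 ^ 2 + w2 ^ 2) := by
    nlinarith [sq_nonneg (v1 * w1 + v2 * w2)]
  have h2 : (v1 ^ 2 + v2 ^ 2) * (w1 ^ 2 + w2 ^ 2) ≤ (4 * R ^ 2) * (4 * R ^ 2) :=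
    mul_le_mul hva hwa (by positivity) (by positivity)
  calc (2 * (v1 * w2 - v2 * w1)) ^ 2 = 4 * (v1 * w2 - v2 * w1) ^ 2 := by ring
    _ ≤ 4 * ((4 * R ^ 2) * (4 * R ^ 2)) := by linarith
    _ = 64 * R ^ 4 := by ring

theorem det_eq {v1 v2 w1 w2 g1 g2 : ℝ} (hv : 2 * (v1 * g1 + v2 * g2) = -(v1 ^ 2 + v2 ^ 2))
    (hw : 2 * (w1 * g1 + w2 * g2) = -(w1 ^ 2 + w2 ^ 2)) (hdet : v1 * w2 - v2 * w1 = 0)
    (ha : v1 ^ 2 + v2 ^ 2 ≠ 0) (hb : w1 ^ 2 + w2 ^ 2 ≠ 0) : v1 = w1 ∧ v2 = w2 := by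
  obtain ⟨a, haa⟩ : ∃ a, a = v1 ^ 2 + v2 ^ 2 := ⟨_, rfl⟩
  obtain ⟨b, hbb⟩ : ∃ b, b = w1 ^ 2 + w2 ^ 2 := ⟨_, rfl⟩
  obtain ⟨s, hs⟩ : ∃ s, s = v1 * w1 + v2 * w2 := ⟨_, rfl⟩
  have k1 : a * w1 = s * v1 := by
    rw [haa, hs]; linear_combination -v2 * hdet
  have k2 : a * w2 = s * v2 := by
    rw [haa, hs]; linear_combination v1 * hdet
  have k3 : b * v1 = s * w1 := by
    rw [hbb, hs]; linear_combination w2 * hdet
  have k4 : b * v2 = s * w2 := by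
    rw [hbb, hs]; linear_combination -w1 * hdet
  rw [← haa] at hv ha
  rw [← hbb] at hw hb
  have m1 : a * b = s * a := by
    have e1 : a * (2 * (w1 * g1 + w2 * g2)) = s * (2 * (v1 * g1 + v2 * g2)) := by
      linear_combination 2 * g1 * k1 + 2 * g2 * k2
    rw [hw, hv] at e1
    linarith
  have m2 : a * b = s * b := by
    have e1 : b * (2 * (v1 * g1 + v2 * g2)) = s * (2 * (w1 * g1 + w2 * g2)) := by
      linear_combination 2 * g1 * k3 + 2 * g2 * k4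
    rw [hw, hv] at e1
    linarith
  have hsb : s = b := by
    have h : a * (b - s) = 0 := by linarith
    have := (mul_eq_zero.mp h).resolve_left ha
    linarith
  have hsa : s = a := by
    have h : b * (a - s) = 0 := by linarith
    have := (mul_eq_zero.mp h).resolve_left hb
    linarith
  have hdiff : (v1 - w1) ^ 2 + (v2 - w2) ^ 2 = 0 := by
    have : (v1 - w1) ^ 2 + (v2 - w2) ^ 2 = a + b - 2 * s := by rw [haa, hbb, hs]; ring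
    rw [this]; linarith
  have h1 : v1 - w1 = 0 := by nlinarith [sq_nonneg (v1 - w1), sq_nonneg (v2 - w2)]
  have h2 : v2 - w2 = 0 := by nlinarith [sq_nonneg (v1 - w1), sq_nonneg (v2 - w2)]
  exact ⟨by linarith, by linarith⟩

/-- Three lattice points on a circle of radius `R`: the lattice points on it inject into the
Gaussian integers of some norm `M ≤ 64 R^6`. -/
theorem three_points {c : ℝ × ℝ} {R : ℝ} (hR : 0 < R) {P Q S : ℤ × ℤ} (hP : P ∈ onCircle c R)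
    (hQ : Q ∈ onCircle c R) (hS : S ∈ onCircle c R) (hPQ : P ≠ Q) (hPS : P ≠ S) (hQS : Q ≠ S) :
    ∃ M : ℕ, 0 < M ∧ (M : ℝ) ≤ 64 * R ^ 6 ∧ (onCircle c R).ncard ≤ (G M).ncard := by
  have hP' : ((P.1 : ℝ) - c.1) ^ 2 + ((P.2 : ℝ) - c.2) ^ 2 = R ^ 2 := hP
  have hQ' : ((Q.1 : ℝ) - c.1) ^ 2 + ((Q.2 : ℝ) - c.2) ^ 2 = R ^ 2 := hQ
  have hS' : ((S.1 : ℝ) - c.1) ^ 2 + ((S.2 : ℝ) - c.2) ^ 2 = R ^ 2 := hS
  -- integer vectors
  set v1 : ℤ := Q.1 - P.1 with hv1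
  set v2 : ℤ := Q.2 - P.2 with hv2
  set w1 : ℤ := S.1 - P.1 with hw1
  set w2 : ℤ := S.2 - P.2 with hw2
  set g1 : ℝ := (P.1 : ℝ) - c.1 with hg1
  set g2 : ℝ := (P.2 : ℝ) - c.2 with hg2
  have ev1 : (v1 : ℝ) = (Q.1 : ℝ) - P.1 := by rw [hv1]; push_cast; ring
  have ev2 : (v2 : ℝ) = (Q.2 : ℝ) - P.2 := by rw [hv2]; push_cast; ring
  have ew1 : (w1 : ℝ) = (S.1 : ℝ) - P.1 := by rw [hw1]; push_cast; ring
  have ew2 : (w2 : ℝ) = (S.2 : ℝ) - P.2 := by rw [hw2]; push_cast; ring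
  have hv : 2 * ((v1 : ℝ) * g1 + v2 * g2) = -((v1 : ℝ) ^ 2 + (v2 : ℝ) ^ 2) := by
    rw [ev1, ev2]
    exact lin_eq (P.1 : ℝ) (P.2 : ℝ) Q.1 Q.2 c.1 c.2 R hP' hQ'
  have hw : 2 * ((w1 : ℝ) * g1 + w2 * g2) = -((w1 : ℝ) ^ 2 + (w2 : ℝ) ^ 2) := by
    rw [ew1, ew2]
    exact lin_eq (P.1 : ℝ) (P.2 : ℝ) S.1 S.2 c.1 c.2 R hP' hS'
  set D : ℤ := 2 * (v1 * w2 - v2 * w1) with hD
  set A : ℤ := -(v1 ^ 2 + v2 ^ 2) * w2 + (w1 ^ 2 + w2 ^ 2) * v2 with hA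
  set B : ℤ := (v1 ^ 2 + v2 ^ 2) * w1 - (w1 ^ 2 + w2 ^ 2) * v1 with hB
  have hDA : (D : ℝ) * g1 = A := by
    rw [hD, hA]; push_cast
    linear_combination (w2 : ℝ) * hv - (v2 : ℝ) * hw
  have hDB : (D : ℝ) * g2 = B := by
    rw [hD, hB]; push_cast
    linear_combination -(w1 : ℝ) * hv + (v1 : ℝ) * hw
  have hD0 : D ≠ 0 := by
    intro h0
    have hdet : (v1 : ℝ) * w2 - v2 * w1 = 0 := by
      have h1 : v1 * w2 - v2 * w1 = 0 := by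
        rw [hD] at h0
        linarith
      exact_mod_cast h1
    have ha0 : (v1 : ℝ) ^ 2 + (v2 : ℝ) ^ 2 ≠ 0 := by
      intro h
      apply hPQ
      obtain ⟨h1, h2⟩ := sq_add_zero h
      have h3 : v1 = 0 := by exact_mod_cast h1
      have h4 : v2 = 0 := by exact_mod_cast h2
      exact Prod.ext (by omega) (by omega)
    have hb0 : (w1 : ℝ) ^ 2 + (w2 : ℝ) ^ 2 ≠ 0 := by
      intro h
      apply hPS
      obtain ⟨h1, h2⟩ := sq_add_zero h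
      have h3 : w1 = 0 := by exact_mod_cast h1
      have h4 : w2 = 0 := by exact_mod_cast h2
      exact Prod.ext (by omega) (by omega)
    obtain ⟨hh1, hh2⟩ := det_eq hv hw hdet ha0 hb0
    apply hQS
    have h3 : v1 = w1 := by exact_mod_cast hh1
    have h4 : v2 = w2 := by exact_mod_cast hh2
    exact Prod.ext (by omega) (by omega)
  -- the norm
  have hD2 : ((D : ℝ)) ^ 2 * R ^ 2 = ((A ^ 2 + B ^ 2 : ℤ) : ℝ) := by
    push_cast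
    rw [← hDA, ← hDB, ← hP']
    ring
  have hAB0 : 0 ≤ A ^ 2 + B ^ 2 := by positivity
  obtain ⟨M, hM⟩ := Int.eq_ofNat_of_zero_le hAB0
  have hMR : (M : ℝ) = (D : ℝ) ^ 2 * R ^ 2 := by
    rw [hD2, hM]; push_cast; rfl
  have hDR : (D : ℝ) ≠ 0 := by exact_mod_cast hD0
  have hMpos : 0 < M := by
    have : (0 : ℝ) < M := by rw [hMR]; positivity
    exact_mod_cast this
  refine ⟨M, hMpos, ?_, ?_⟩
  · have hva : (v1 : ℝ) ^ 2 + (v2 : ℝ) ^ 2 ≤ 4 * R ^ 2 := by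
      rw [ev1, ev2]
      exact diff_le (P.1 : ℝ) (P.2 : ℝ) Q.1 Q.2 c.1 c.2 R hP' hQ'
    have hwa : (w1 : ℝ) ^ 2 + (w2 : ℝ) ^ 2 ≤ 4 * R ^ 2 := by
      rw [ew1, ew2]
      exact diff_le (P.1 : ℝ) (P.2 : ℝ) S.1 S.2 c.1 c.2 R hP' hS'
    have hDsq : (D : ℝ) ^ 2 ≤ 64 * R ^ 4 := by
      have e : (D : ℝ) = 2 * ((v1 : ℝ) * w2 - v2 * w1) := by rw [hD]; push_cast; ring
      rw [e]
      exact det_sq_le hva hwa
    rw [hMR]
    calc (D : ℝ) ^ 2 * R ^ 2 ≤ (64 * R ^ 4) * R ^ 2 := mul_le_mul_of_nonneg_right hDsq (by positivity)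
      _ = 64 * R ^ 6 := by ring
  · -- the injection
    have hmaps : (fun p : ℤ × ℤ => (⟨D * (p.1 - P.1) + A, D * (p.2 - P.2) + B⟩ : GaussianInt)) ''
        onCircle c R ⊆ G M := by
      rintro z ⟨p, hp, rfl⟩
      have hp' : ((p.1 : ℝ) - c.1) ^ 2 + ((p.2 : ℝ) - c.2) ^ 2 = R ^ 2 := hp
      show (⟨D * (p.1 - P.1) + A, D * (p.2 - P.2) + B⟩ : GaussianInt).norm = (M : ℤ)
      rw [norm_form]
      simp only
      have hreal : (((D * (p.1 - P.1) + A) * (D * (p.1 - P.1) + A) +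
          (D * (p.2 - P.2) + B) * (D * (p.2 - P.2) + B) : ℤ) : ℝ) = ((M : ℤ) : ℝ) := by
        push_cast
        rw [hMR, ← hDA, ← hDB, ← hp', hg1, hg2]
        ring
      exact_mod_cast hreal
    have h1 := Set.ncard_le_ncard hmaps (G_finite M)
    rwa [Set.ncard_image_of_injective] at h1
    intro p q h
    simp only [Zsqrtd.mk.injEq, add_left_inj, mul_eq_mul_left_iff, hD0, or_false, sub_left_inj] at h
    exact Prod.ext h.1 h.2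

theorem circle_bound (ε : ℝ) (hε : 0 < ε) : ∃ C : ℝ, 0 < C ∧ ∀ (c : ℝ × ℝ) (R : ℝ), 0 < R →
    ((onCircle c R).ncard : ℝ) ≤ 2 + C * (64 * R ^ 6) ^ ε := by
  obtain ⟨C, hC, hdiv⟩ := Pool.Agent.LangUnit.divisor_bound (ε / 6) (by positivity)
  refine ⟨9 * C ^ 6, by positivity, ?_⟩
  intro c R hR
  rcases Nat.lt_or_ge 2 (onCircle c R).ncard with h | h
  · obtain ⟨P, hP, Q, hQ, S, hS, h1, h2, h3⟩ := (Set.two_lt_ncard (onCircle_finite c R)).mp h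
    obtain ⟨M, hM0, hM, hle⟩ := three_points hR hP hQ hS h1 h2 h3
    have e1 : ((onCircle c R).ncard : ℝ) ≤ 9 * (M.divisors.card : ℝ) ^ 6 := by
      have := hle.trans (G_le M hM0)
      exact_mod_cast this
    have e2 : (M.divisors.card : ℝ) ^ 6 ≤ (C * (M : ℝ) ^ (ε / 6)) ^ 6 :=
      pow_le_pow_left₀ (by positivity) (hdiv M hM0) 6
    have e3 : (C * (M : ℝ) ^ (ε / 6)) ^ 6 = C ^ 6 * (M : ℝ) ^ ε := by
      rw [mul_pow, ← Real.rpow_natCast ((M : ℝ) ^ (ε / 6)) 6, ← Real.rpow_mul (by positivity)]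
      congr 2
      push_cast
      ring
    have e4 : (M : ℝ) ^ ε ≤ (64 * R ^ 6) ^ ε := Real.rpow_le_rpow (by positivity) hM hε.le
    calc ((onCircle c R).ncard : ℝ) ≤ 9 * (M.divisors.card : ℝ) ^ 6 := e1
      _ ≤ 9 * (C ^ 6 * (M : ℝ) ^ ε) := by rw [← e3]; linarith
      _ ≤ 9 * (C ^ 6 * (64 * R ^ 6) ^ ε) := by gcongr
      _ ≤ 2 + 9 * C ^ 6 * (64 * R ^ 6) ^ ε := by linarith
  · have : ((onCircle c R).ncard : ℝ) ≤ 2 := by exact_mod_cast h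
    have h2 : 0 ≤ 9 * C ^ 6 * (64 * R ^ 6) ^ ε := by positivity
    linarith

end Pool.Agent.MCG
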