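import Pool.Agent.MCG.Basic

set_option linter.unusedSectionVars false
set_option linter.unusedSimpArgs false
set_option linter.unusedVariables false

/-! The count changes by at most one along a path of centres that avoids double points. -/

namespace Pool.Agent.MCG

open Filter Topology

/-- The centres with at least two lattice points on the circle of radius `R`. -/
def bad (R : ℝ) : Set (ℝ × ℝ) := {c | ∃ p ∈ onCircle c R, ∃ q ∈ onCircle c R, p ≠ q}

theorem two_circles_countable (p q : ℤ × ℤ) (hpq : p ≠ q) (R : ℝ) :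
    {c : ℝ × ℝ | d2 c p = R ^ 2 ∧ d2 c q = R ^ 2}.Countable := by
  set a : ℝ := (q.1 : ℝ) - p.1 with ha
  set b : ℝ := (q.2 : ℝ) - p.2 with hb
  have hab : 0 < a ^ 2 + b ^ 2 := by
    by_contra hcon
    push Not at hcon
    have h1 : a = 0 := by nlinarith [sq_nonneg a, sq_nonneg b]
    have h2 : b = 0 := by nlinarith [sq_nonneg a, sq_nonneg b]
    apply hpq
    have h3 : (q.1 : ℝ) = p.1 := by linarith
    have h4 : (q.2 : ℝ) = p.2 := by linarith
    exact Prod.ext (by exact_mod_cast h3.symm) (by exact_mod_cast h4.symm)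
  set e : ℝ := ((q.1 : ℝ) ^ 2 + (q.2 : ℝ) ^ 2 - (p.1 : ℝ) ^ 2 - (p.2 : ℝ) ^ 2) / 2 with he
  set u₀ : ℝ := a * p.2 - b * p.1 with hu
  set K : ℝ := (a ^ 2 + b ^ 2) * R ^ 2 - (e - (a * p.1 + b * p.2)) ^ 2 with hK
  have hsub : {c : ℝ × ℝ | d2 c p = R ^ 2 ∧ d2 c q = R ^ 2} ⊆
      {c | a * c.1 + b * c.2 = e ∧ a * c.2 - b * c.1 = u₀ + Real.sqrt K} ∪
      {c | a * c.1 + b * c.2 = e ∧ a * c.2 - b * c.1 = u₀ - Real.sqrt K} := by
    rintro c ⟨h1, h2⟩
    unfold d2 at h1 h2
    have hlin : a * c.1 + b * c.2 = e := by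
      rw [ha, hb, he]; linarith
    have hsq : (a * c.2 - b * c.1 - u₀) ^ 2 = K := by
      have hkey : (a * c.1 + b * c.2 - (a * p.1 + b * p.2)) ^ 2 + (a * c.2 - b * c.1 - (a * p.2 - b * p.1)) ^ 2
          = (a ^ 2 + b ^ 2) * (((p.1 : ℝ) - c.1) ^ 2 + ((p.2 : ℝ) - c.2) ^ 2) := by ring
      rw [hlin, h1] at hkey
      rw [hK, hu]
      linarith
    have hK0 : 0 ≤ K := by rw [← hsq]; positivity
    have hs := Real.sq_sqrt hK0
    have hfac : (a * c.2 - b * c.1 - u₀ - Real.sqrt K) * (a * c.2 - b * c.1 - u₀ + Real.sqrt K) = 0 := by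
      nlinarith
    rcases mul_eq_zero.mp hfac with h | h
    · left; exact ⟨hlin, by linarith⟩
    · right; exact ⟨hlin, by linarith⟩
  have hsing : ∀ w : ℝ, {c : ℝ × ℝ | a * c.1 + b * c.2 = e ∧ a * c.2 - b * c.1 = w}.Subsingleton := by
    rintro w c ⟨h1, h2⟩ d ⟨h3, h4⟩
    have h5 : (a ^ 2 + b ^ 2) * (c.1 - d.1) = 0 := by linear_combination a * (h1 - h3) - b * (h2 - h4)
    have h6 : (a ^ 2 + b ^ 2) * (c.2 - d.2) = 0 := by linear_combination b * (h1 - h3) + a * (h2 - h4)
    have h7 := (mul_eq_zero.mp h5).resolve_left hab.ne'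
    have h8 := (mul_eq_zero.mp h6).resolve_left hab.ne'
    exact Prod.ext (by linarith) (by linarith)
  exact ((hsing _).countable.union (hsing _).countable).mono hsub

theorem bad_countable (R : ℝ) : (bad R).Countable := by
  have : bad R ⊆ ⋃ pq : (ℤ × ℤ) × (ℤ × ℤ), {c : ℝ × ℝ | pq.1 ≠ pq.2 ∧ d2 c pq.1 = R ^ 2 ∧ d2 c pq.2 = R ^ 2} := by
    rintro c ⟨p, hp, q, hq, hpq⟩
    exact Set.mem_iUnion.mpr ⟨(p, q), hpq, hp, hq⟩
  refine Set.Countable.mono this (Set.countable_iUnion fun pq => ?_)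
  by_cases h : pq.1 = pq.2
  · refine Set.Countable.mono ?_ Set.countable_empty
    rintro c ⟨h1, -⟩
    exact absurd h h1
  · refine Set.Countable.mono ?_ (two_circles_countable pq.1 pq.2 h R)
    rintro c ⟨-, h2, h3⟩
    exact ⟨h2, h3⟩

/-- Discrete intermediate value. -/
theorem discrete_ivt (F : unitInterval → ℕ) (n : ℕ) (h0 : F 0 < n) (h1 : n ≤ F 1)
    (hl : ∀ t, ∀ᶠ s in 𝓝 t, F t ≤ F s ∧ F s ≤ F t + 1) : ∃ t, F t = n := by
  by_contra hcon
  push Not at hcon
  -- the set {F < n} is clopen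
  have hopen : IsOpen {t | F t < n} := by
    rw [isOpen_iff_mem_nhds]
    intro t ht
    have ht' : F t < n := ht
    filter_upwards [hl t] with s hs
    show F s < n
    have := hcon s
    omega
  have hopen' : IsOpen {t | F t < n}ᶜ := by
    rw [isOpen_iff_mem_nhds]
    intro t ht
    have ht' : ¬ F t < n := ht
    filter_upwards [hl t] with s hs
    show ¬ F s < n
    omega
  have hclopen : IsClopen {t | F t < n} := ⟨⟨hopen'⟩, hopen⟩
  rcases isClopen_iff.mp hclopen with h | h
  · have : (0 : unitInterval) ∈ {t | F t < n} := h0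
    rw [h] at this
    exact this
  · have : (1 : unitInterval) ∈ {t | F t < n} := by rw [h]; trivial
    have : F 1 < n := this
    omega

/-- If a centre has fewer than `n` lattice points in a slightly larger disc and another has at
least `n`, then `n` is attained at radius `R`. -/
theorem cross {n : ℕ} {R S : ℝ} (hR : 0 < R) (hRS : R < S) {c₀ c₁ : ℝ × ℝ}
    (h0 : count c₀ S < n) (h1 : n ≤ count c₁ R) : ∃ c, count c R = n := by
  have hdense : Dense (bad R)ᶜ := (bad_countable R).dense_compl ℝ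
  -- near c₀ the count at radius R is < n
  have e0 : ∀ᶠ c in 𝓝 c₀, count c R < n := by
    have hl := local_struct c₀ S
    -- near c₀: inside c R ⊆ inside c₀ S
    have e : ∀ᶠ c in 𝓝 c₀, |c.1 - c₀.1| < (S - R) / 2 ∧ |c.2 - c₀.2| < (S - R) / 2 := by
      have e1 : ∀ᶠ c : ℝ × ℝ in 𝓝 c₀, |c.1 - c₀.1| < (S - R) / 2 := by
        have hc : Continuous fun c : ℝ × ℝ => |c.1 - c₀.1| := by fun_prop
        exact hc.continuousAt.eventually_lt_const (by simp; linarith)
      have e2 : ∀ᶠ c : ℝ × ℝ in 𝓝 c₀, |c.2 - c₀.2| < (S - R) / 2 := by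
        have hc : Continuous fun c : ℝ × ℝ => |c.2 - c₀.2| := by fun_prop
        exact hc.continuousAt.eventually_lt_const (by simp; linarith)
      exact e1.and e2
    filter_upwards [e] with c hc
    refine lt_of_le_of_lt (Set.ncard_le_ncard ?_ (inside_finite c₀ S)) h0
    intro p hp
    have hp' : d2 c p < R ^ 2 := hp
    show d2 c₀ p < S ^ 2
    unfold d2 at hp' ⊢
    obtain ⟨k1, k2⟩ := hc
    rw [abs_lt] at k1 k2
    set x := (p.1 : ℝ) - c.1
    set y := (p.2 : ℝ) - c.2
    have e1 : (p.1 : ℝ) - c₀.1 = x + (c.1 - c₀.1) := by simp only [x]; ring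
    have e2 : (p.2 : ℝ) - c₀.2 = y + (c.2 - c₀.2) := by simp only [y]; ring
    rw [e1, e2]
    set u := c.1 - c₀.1
    set v := c.2 - c₀.2
    set D := S - R with hD
    have hD0 : 0 < D := by rw [hD]; linarith
    have hu : u ^ 2 < D ^ 2 / 4 := by nlinarith
    have hv : v ^ 2 < D ^ 2 / 4 := by nlinarith
    have hcs : (x * u + y * v) ^ 2 ≤ (x ^ 2 + y ^ 2) * (u ^ 2 + v ^ 2) := by
      nlinarith [sq_nonneg (x * v - y * u)]
    have hcs2 : (x * u + y * v) ^ 2 ≤ (R * D) ^ 2 := by
      have : (x ^ 2 + y ^ 2) * (u ^ 2 + v ^ 2) ≤ R ^ 2 * D ^ 2 := by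
        apply mul_le_mul (le_of_lt hp') (by nlinarith) (by positivity) (by positivity)
      nlinarith
    have hcs3 : x * u + y * v ≤ R * D := by
      have := abs_le_of_sq_le_sq hcs2 (by positivity)
      linarith [le_abs_self (x * u + y * v)]
    have hS : S = R + D := by rw [hD]; ring
    rw [hS]
    nlinarith
  have e1 : ∀ᶠ c in 𝓝 c₁, n ≤ count c R := by
    have hl := local_struct c₁ R
    have : ∀ᶠ c in 𝓝 c₁, inside c₁ R ⊆ inside c R := by
      have hc : Filter.Tendsto (fun c : ℝ × ℝ => (c, R)) (𝓝 c₁) (𝓝 (c₁, R)) :=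
        (Continuous.prodMk continuous_id continuous_const).tendsto c₁
      filter_upwards [hc.eventually hl] with c h using h.1
    filter_upwards [this] with c hc
    exact le_trans h1 (Set.ncard_le_ncard hc (inside_finite c R))
  obtain ⟨d₀, hd₀, hd₀'⟩ := (hdense.inter_nhds_nonempty e0)
  obtain ⟨d₁, hd₁, hd₁'⟩ := (hdense.inter_nhds_nonempty e1)
  have hpc : IsPathConnected (bad R)ᶜ := by
    apply (bad_countable R).isPathConnected_compl_of_one_lt_rank
    rw [rank_prod']
    simp only [Module.rank_self]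
    norm_num
  obtain ⟨γ, hγ⟩ := hpc.joinedIn d₀ hd₀ d₁ hd₁
  obtain ⟨t, ht⟩ := discrete_ivt (fun t => count (γ t) R) n (by simpa using hd₀') (by simpa using hd₁') (by
    intro t
    have hl := local_struct (γ t) R
    have hc : Filter.Tendsto (fun s : unitInterval => (γ s, R)) (𝓝 t) (𝓝 (γ t, R)) :=
      (Continuous.prodMk γ.continuous continuous_const).tendsto t
    filter_upwards [hc.eventually hl] with s hs
    constructor
    · exact Set.ncard_le_ncard hs.1 (inside_finite _ _)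
    · have h1 : (onCircle (γ t) R).ncard ≤ 1 := by
        rw [Set.ncard_le_one (onCircle_finite _ _)]
        intro a ha b hb
        by_contra hab
        exact hγ t ⟨a, ha, b, hb, hab⟩
      calc count (γ s) R ≤ (inside (γ t) R ∪ onCircle (γ t) R).ncard :=
            Set.ncard_le_ncard hs.2 ((inside_finite _ _).union (onCircle_finite _ _))
        _ ≤ (inside (γ t) R).ncard + (onCircle (γ t) R).ncard := Set.ncard_union_le _ _
        _ ≤ count (γ t) R + 1 := by unfold count; omega)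
  exact ⟨γ t, ht⟩

end Pool.Agent.MCG
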