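import Pool.Agent.MCG.Main
import Pool.Agent.MCG.Circ

set_option linter.unusedSectionVars false
set_option linter.unusedSimpArgs false
set_option linter.unusedVariables false

/-! The jump is less than half the number of lattice points on the limit circle; gaps and
counting. -/

namespace Pool.Agent.MCG

open Filter Topology

/-- The scalar product of `p - c` with `v`. -/
noncomputable def dot (c : ℝ × ℝ) (v : ℝ × ℝ) (p : ℤ × ℤ) : ℝ :=
  ((p.1 : ℝ) - c.1) * v.1 + ((p.2 : ℝ) - c.2) * v.2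

theorem exists_generic (c : ℝ × ℝ) {R : ℝ} (hR : 0 < R) :
    ∃ v : ℝ × ℝ, ∀ p ∈ onCircle c R, dot c v p ≠ 0 := by
  have hfin : ((fun p : ℤ × ℤ => -((p.1 : ℝ) - c.1) / ((p.2 : ℝ) - c.2)) '' onCircle c R).Finite :=
    (onCircle_finite c R).image _
  obtain ⟨t, ht⟩ := hfin.exists_notMem
  refine ⟨(1, t), ?_⟩
  intro p hp h0
  have hp' : ((p.1 : ℝ) - c.1) ^ 2 + ((p.2 : ℝ) - c.2) ^ 2 = R ^ 2 := hp
  unfold dot at h0
  simp only [mul_one] at h0
  by_cases hy : (p.2 : ℝ) - c.2 = 0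
  · rw [hy] at h0 hp'
    have hx : (p.1 : ℝ) - c.1 = 0 := by linarith
    rw [hx] at hp'
    have : 0 < R ^ 2 := by positivity
    linarith
  · apply ht
    refine ⟨p, hp, ?_⟩
    show -((p.1 : ℝ) - c.1) / ((p.2 : ℝ) - c.2) = t
    rw [div_eq_iff hy]
    linarith

theorem perturb_dir (c : ℝ × ℝ) {R : ℝ} (hR : 0 < R) (v : ℝ × ℝ)
    (hv : ∀ p ∈ onCircle c R, dot c v p ≠ 0) :
    ∃ c' : ℝ × ℝ, ∃ S : ℝ, R < S ∧
      count c' S ≤ count c R + {p ∈ onCircle c R | 0 < dot c v p}.ncard := by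
  have hpath : Tendsto (fun δ : ℝ => (((c.1 + δ * v.1, c.2 + δ * v.2) : ℝ × ℝ), R + δ ^ 2))
      (𝓝[>] 0) (𝓝 (c, R)) := by
    have hc : Continuous (fun δ : ℝ => (((c.1 + δ * v.1, c.2 + δ * v.2) : ℝ × ℝ), R + δ ^ 2)) := by
      fun_prop
    have h := hc.tendsto 0
    simp only [zero_mul, add_zero, ne_eq, OfNat.ofNat_ne_zero, not_false_eq_true, zero_pow] at h
    exact h.mono_left nhdsWithin_le_nhds
  have h1 := hpath.eventually (local_struct c R)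
  have h2 : ∀ᶠ δ : ℝ in 𝓝[>] 0, ∀ p ∈ {p ∈ onCircle c R | dot c v p < 0},
      (R + δ ^ 2) ^ 2 ≤ d2 (c.1 + δ * v.1, c.2 + δ * v.2) p := by
    rw [Filter.eventually_all_finite ((onCircle_finite c R).subset (Set.sep_subset _ _))]
    rintro p ⟨hp, hneg⟩
    have hp' : ((p.1 : ℝ) - c.1) ^ 2 + ((p.2 : ℝ) - c.2) ^ 2 = R ^ 2 := hp
    have hcont : ∀ᶠ δ : ℝ in 𝓝[>] 0, 2 * R * δ + δ ^ 3 < -(2 * dot c v p) + δ * (v.1 ^ 2 + v.2 ^ 2) := by
      have hf : Continuous (fun δ : ℝ => 2 * R * δ + δ ^ 3 - δ * (v.1 ^ 2 + v.2 ^ 2)) := by fun_prop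
      have hlt : ∀ᶠ δ : ℝ in 𝓝 0, 2 * R * δ + δ ^ 3 - δ * (v.1 ^ 2 + v.2 ^ 2) < -(2 * dot c v p) :=
        (hf.tendsto (0 : ℝ)).eventually_lt_const (by simp; linarith)
      filter_upwards [nhdsWithin_le_nhds hlt] with δ hδ
      linarith
    filter_upwards [hcont, self_mem_nhdsWithin] with δ hδ hpos
    have hpos' : 0 < δ := hpos
    have e : d2 (c.1 + δ * v.1, c.2 + δ * v.2) p =
        R ^ 2 - 2 * δ * dot c v p + δ ^ 2 * (v.1 ^ 2 + v.2 ^ 2) := by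
      unfold d2 dot
      simp only
      rw [← hp']
      ring
    rw [e]
    have hmul := mul_lt_mul_of_pos_left hδ hpos'
    nlinarith
  obtain ⟨δ, g1, g2, g3⟩ := (h1.and (h2.and self_mem_nhdsWithin)).exists
  have hpos : 0 < δ := g3
  refine ⟨(c.1 + δ * v.1, c.2 + δ * v.2), R + δ ^ 2, by nlinarith, ?_⟩
  have hsub : inside (c.1 + δ * v.1, c.2 + δ * v.2) (R + δ ^ 2) ⊆
      inside c R ∪ {p ∈ onCircle c R | 0 < dot c v p} := by
    intro p hp
    rcases g1.2 hp with h | h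
    · exact Or.inl h
    · right
      refine ⟨h, ?_⟩
      by_contra hcon
      have hlt : dot c v p < 0 := lt_of_le_of_ne (not_lt.mp hcon) (hv p h)
      have h5 := g2 p ⟨h, hlt⟩
      have h6 : d2 (c.1 + δ * v.1, c.2 + δ * v.2) p < (R + δ ^ 2) ^ 2 := hp
      linarith
  calc count (c.1 + δ * v.1, c.2 + δ * v.2) (R + δ ^ 2)
      ≤ (inside c R ∪ {p ∈ onCircle c R | 0 < dot c v p}).ncard :=
        Set.ncard_le_ncard hsub ((inside_finite _ _).union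
          ((onCircle_finite c R).subset (Set.sep_subset _ _)))
    _ ≤ _ := Set.ncard_union_le _ _

/-- Every circle can be replaced by a larger one that encloses at most half of the boundary
points in addition. -/
theorem perturb (c : ℝ × ℝ) {R : ℝ} (hR : 0 < R) :
    ∃ c' : ℝ × ℝ, ∃ S : ℝ, R < S ∧ count c' S ≤ count c R + (onCircle c R).ncard / 2 := by
  obtain ⟨v, hv⟩ := exists_generic c hR
  have hneg : ∀ p, dot c (-v.1, -v.2) p = - dot c v p := by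
    intro p; unfold dot; ring
  have hfin1 : {p ∈ onCircle c R | 0 < dot c v p}.Finite :=
    (onCircle_finite c R).subset (Set.sep_subset _ _)
  have hfin2 : {p ∈ onCircle c R | 0 < dot c (-v.1, -v.2) p}.Finite :=
    (onCircle_finite c R).subset (Set.sep_subset _ _)
  have hdisj : Disjoint {p ∈ onCircle c R | 0 < dot c v p} {p ∈ onCircle c R | 0 < dot c (-v.1, -v.2) p} := by
    rw [Set.disjoint_left]
    rintro p ⟨-, h1⟩ ⟨-, h2⟩
    rw [hneg] at h2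
    linarith
  have hunion : ({p ∈ onCircle c R | 0 < dot c v p} ∪ {p ∈ onCircle c R | 0 < dot c (-v.1, -v.2) p}) ⊆
      onCircle c R := by
    rintro p (h | h)
    · exact h.1
    · exact h.1
  have hcard := Set.ncard_le_ncard hunion (onCircle_finite c R)
  rw [Set.ncard_union_eq hdisj hfin1 hfin2] at hcard
  rcases Nat.lt_or_ge ((onCircle c R).ncard / 2) {p ∈ onCircle c R | 0 < dot c v p}.ncard with h | h
  · obtain ⟨c', S, hS, hle⟩ := perturb_dir c hR (-v.1, -v.2) (by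
      intro p hp; rw [hneg]; exact neg_ne_zero.mpr (hv p hp))
    exact ⟨c', S, hS, hle.trans (by omega)⟩
  · obtain ⟨c', S, hS, hle⟩ := perturb_dir c hR v hv
    exact ⟨c', S, hS, hle.trans (by omega)⟩

theorem Rn_mono : Monotone Rn := by
  intro m n hmn
  by_contra hcon
  push Not at hcon
  obtain ⟨S, hS, hS2⟩ := exists_lt_of_lt_csSup (enc_nonempty m) hcon
  obtain ⟨-, c₀, hc₀⟩ := hS
  have := no_smaller (c₀ := c₀) hS2
  omega

theorem nonMC_step {n : ℕ} (hn : ¬ MC n) : ∃ c : ℝ × ℝ, MC (count c (Rn n)) ∧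
    Rn (count c (Rn n)) = Rn n ∧ count c (Rn n) < n ∧
    n < count c (Rn n) + (onCircle c (Rn n)).ncard / 2 := by
  obtain ⟨c, h1, h2, h3⟩ := main_step hn
  refine ⟨c, h3, le_antisymm (Rn_mono h1.le) (le_csSup (bddAbove _) ⟨Rn_pos n, c, rfl⟩), h1, ?_⟩
  obtain ⟨c', S, hS, hle⟩ := perturb c (Rn_pos n)
  have := no_smaller (c₀ := c') hS
  omega

/-- Below every `n` there is an MC integer at distance at most `C n^ε`. -/
theorem gaps (ε : ℝ) (hε : 0 < ε) : ∃ C : ℝ, 0 < C ∧ ∀ n : ℕ, 1 ≤ n →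
    ∃ m : ℕ, MC m ∧ m ≤ n ∧ (n : ℝ) ≤ m + C * (n : ℝ) ^ ε := by
  obtain ⟨C, hC, hb⟩ := circle_bound (ε / 6) (by positivity)
  refine ⟨2 + C * (64 : ℝ) ^ (ε / 6) * 3 ^ ε, by positivity, ?_⟩
  intro n hn
  have hn1 : (1 : ℝ) ≤ n := by exact_mod_cast hn
  have hpow1 : (1 : ℝ) ≤ (n : ℝ) ^ ε := Real.one_le_rpow hn1 hε.le
  by_cases h : MC n
  · refine ⟨n, h, le_refl n, ?_⟩
    have : 0 ≤ (2 + C * (64 : ℝ) ^ (ε / 6) * 3 ^ ε) * (n : ℝ) ^ ε := by positivity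
    linarith
  · obtain ⟨c, h1, -, h2, h3⟩ := nonMC_step h
    refine ⟨_, h1, h2.le, ?_⟩
    have hk := hb c (Rn n) (Rn_pos n)
    have e1 : (n : ℝ) ≤ (count c (Rn n) : ℝ) + ((onCircle c (Rn n)).ncard : ℝ) := by
      have : n ≤ count c (Rn n) + (onCircle c (Rn n)).ncard := by omega
      exact_mod_cast this
    have hRle : Rn n ≤ 3 * n := by
      have := Rn_le n
      linarith
    have e2 : (64 * (Rn n) ^ 6) ^ (ε / 6) ≤ (64 : ℝ) ^ (ε / 6) * 3 ^ ε * (n : ℝ) ^ ε := by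
      have hR0 := (Rn_pos n).le
      calc (64 * (Rn n) ^ 6) ^ (ε / 6) ≤ (64 * (3 * (n : ℝ)) ^ 6) ^ (ε / 6) := by
            apply Real.rpow_le_rpow (by positivity) _ (by positivity)
            gcongr
        _ = (64 : ℝ) ^ (ε / 6) * ((3 * (n : ℝ)) ^ 6) ^ (ε / 6) := by
            rw [Real.mul_rpow (by norm_num) (by positivity)]
        _ = (64 : ℝ) ^ (ε / 6) * (3 * (n : ℝ)) ^ ε := by
            congr 1
            rw [← Real.rpow_natCast (3 * (n : ℝ)) 6, ← Real.rpow_mul (by positivity)]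
            congr 1
            push_cast
            ring
        _ = (64 : ℝ) ^ (ε / 6) * 3 ^ ε * (n : ℝ) ^ ε := by
            rw [Real.mul_rpow (by norm_num) (by positivity)]
            ring
    calc (n : ℝ) ≤ (count c (Rn n) : ℝ) + ((onCircle c (Rn n)).ncard : ℝ) := e1
      _ ≤ (count c (Rn n) : ℝ) + (2 + C * (64 * (Rn n) ^ 6) ^ (ε / 6)) := by linarith
      _ ≤ (count c (Rn n) : ℝ) + (2 + C * ((64 : ℝ) ^ (ε / 6) * 3 ^ ε * (n : ℝ) ^ ε)) := by gcongr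
      _ ≤ (count c (Rn n) : ℝ) + (2 + C * (64 : ℝ) ^ (ε / 6) * 3 ^ ε) * (n : ℝ) ^ ε := by
          have : 2 ≤ 2 * (n : ℝ) ^ ε := by linarith
          nlinarith

/-- Counting. -/
theorem counting (ε : ℝ) (hε : 0 < ε) : ∃ c : ℝ, 0 < c ∧ ∀ N : ℕ, 1 ≤ N →
    c * (N : ℝ) ^ (1 - ε) ≤ ({m : ℕ | m < N ∧ MC m}.ncard : ℝ) := by
  obtain ⟨C, hC, hg⟩ := gaps ε hε
  refine ⟨1 / (C + 2), by positivity, ?_⟩
  intro N hN
  have hN1 : (1 : ℝ) ≤ N := by exact_mod_cast hN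
  have hpow1 : (1 : ℝ) ≤ (N : ℝ) ^ ε := Real.one_le_rpow hN1 hε.le
  set L : ℕ := ⌊C * (N : ℝ) ^ ε⌋₊ with hL
  have hLle : (L : ℝ) ≤ C * (N : ℝ) ^ ε := Nat.floor_le (by positivity)
  have hfinA : {m : ℕ | m < N ∧ MC m}.Finite := (Set.finite_Iio N).subset fun m hm => by
    obtain ⟨h1, -⟩ := hm
    exact h1
  have hMC0 : MC 0 := by
    by_contra h
    obtain ⟨c, -, -, h2, -⟩ := nonMC_step h
    omega
  have hcover : (Set.Iio N : Set ℕ) ⊆
      (fun x : ℕ × ℕ => x.1 + x.2) '' ({m : ℕ | m < N ∧ MC m} ×ˢ Set.Iic L) := by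
    intro n hn
    have hn' : n < N := hn
    rcases Nat.eq_zero_or_pos n with rfl | hpos
    · exact ⟨(0, 0), ⟨⟨hn', hMC0⟩, Nat.zero_le _⟩, rfl⟩
    · obtain ⟨m, hm, hmn, hle⟩ := hg n hpos
      refine ⟨(m, n - m), ⟨⟨lt_of_le_of_lt hmn hn', hm⟩, ?_⟩, by simp; omega⟩
      show n - m ≤ L
      apply Nat.le_floor
      rw [Nat.cast_sub hmn]
      have : (n : ℝ) ^ ε ≤ (N : ℝ) ^ ε :=
        Real.rpow_le_rpow (by positivity) (by exact_mod_cast hn'.le) hε.le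
      have : C * (n : ℝ) ^ ε ≤ C * (N : ℝ) ^ ε := by gcongr
      linarith
  have hIio : (Set.Iio N : Set ℕ).ncard = N := by
    rw [← Finset.coe_range, Set.ncard_coe_finset, Finset.card_range]
  have hIic : (Set.Iic L : Set ℕ).ncard = L + 1 := by
    have : (Set.Iic L : Set ℕ) = ((Finset.range (L + 1) : Finset ℕ) : Set ℕ) := by
      ext x; simp [Nat.lt_succ_iff]
    rw [this, Set.ncard_coe_finset, Finset.card_range]
  have hfinP : ({m : ℕ | m < N ∧ MC m} ×ˢ Set.Iic L).Finite := hfinA.prod (Set.finite_Iic L)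
  have hle : N ≤ {m : ℕ | m < N ∧ MC m}.ncard * (L + 1) := by
    calc N = (Set.Iio N : Set ℕ).ncard := hIio.symm
      _ ≤ _ := Set.ncard_le_ncard hcover (hfinP.image _)
      _ ≤ ({m : ℕ | m < N ∧ MC m} ×ˢ Set.Iic L).ncard := Set.ncard_image_le hfinP
      _ = _ := by rw [Set.ncard_prod, hIic]
  set A := {m : ℕ | m < N ∧ MC m}.ncard with hA
  have hleR : (N : ℝ) ≤ (A : ℝ) * ((L : ℝ) + 1) := by exact_mod_cast hle
  have h1 : (L : ℝ) + 1 ≤ (C + 2) * (N : ℝ) ^ ε := by nlinarith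
  have h2 : (N : ℝ) ≤ (A : ℝ) * ((C + 2) * (N : ℝ) ^ ε) :=
    hleR.trans (mul_le_mul_of_nonneg_left h1 (Nat.cast_nonneg _))
  have h3 : (N : ℝ) ^ (1 - ε) = N / (N : ℝ) ^ ε := by
    rw [Real.rpow_sub (by linarith), Real.rpow_one]
  rw [h3, div_mul_div_comm, one_mul, div_le_iff₀ (by positivity)]
  linarith

end Pool.Agent.MCG
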