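import Pool.Agent.MCG.Cross

set_option linter.unusedSectionVars false
set_option linter.unusedSimpArgs false
set_option linter.unusedVariables false

/-! A non-MC integer has an MC integer just below it. -/

namespace Pool.Agent.MCG

open Filter Topology

theorem steinhaus {p q : ℤ × ℤ} (h : d2 (Real.sqrt 2, 1 / 3) p = d2 (Real.sqrt 2, 1 / 3) q) :
    p = q := by
  unfold d2 at h
  simp only at h
  have h1 : p.1 = q.1 := by
    by_contra hne
    have hne' : ((p.1 : ℝ) - q.1) ≠ 0 := by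
      intro h0
      apply hne
      have : (p.1 : ℝ) = q.1 := by linarith
      exact_mod_cast this
    apply irrational_sqrt_two
    refine ⟨(((p.1 : ℚ) ^ 2 - (q.1 : ℚ) ^ 2 + (p.2 : ℚ) ^ 2 - (q.2 : ℚ) ^ 2 - (2 / 3) * ((p.2 : ℚ) - q.2)) /
      (2 * ((p.1 : ℚ) - q.1))), ?_⟩
    push_cast
    rw [div_eq_iff (by simpa using hne')]
    linarith
  have h2 : p.2 = q.2 := by
    rw [h1] at h
    have h3 : ((p.2 : ℝ) - q.2) * (3 * ((p.2 : ℝ) + q.2) - 2) = 0 := by linarith
    rcases mul_eq_zero.mp h3 with h4 | h4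
    · have : (p.2 : ℝ) = q.2 := by linarith
      exact_mod_cast this
    · exfalso
      have h5 : 3 * (p.2 + q.2) = 2 := by
        have : (3 : ℝ) * ((p.2 : ℝ) + q.2) = 2 := by linarith
        exact_mod_cast this
      omega
  exact Prod.ext h1 h2

theorem enc_nonempty (n : ℕ) : ∃ R, Enc n R := by
  rcases Nat.eq_zero_or_pos n with rfl | hn
  · refine ⟨1 / 4, by norm_num, (1 / 2, 1 / 2), ?_⟩
    unfold count
    rw [Set.ncard_eq_zero (inside_finite _ _)]
    apply Set.eq_empty_of_forall_notMem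
    intro p hp
    have hp' : ((p.1 : ℝ) - 1 / 2) ^ 2 + ((p.2 : ℝ) - 1 / 2) ^ 2 < (1 / 4 : ℝ) ^ 2 := hp
    have h1 : ((p.1 : ℝ) - 1 / 2) ^ 2 < (1 / 4 : ℝ) ^ 2 := by
      nlinarith [sq_nonneg ((p.2 : ℝ) - 1 / 2)]
    have h2 := abs_lt_of_sq_lt_sq' h1 (by norm_num)
    have h3 : (0 : ℝ) < p.1 := by linarith [h2.1]
    have h4 : (p.1 : ℝ) < 1 := by linarith [h2.2]
    have h5 : (0 : ℤ) < p.1 := by exact_mod_cast h3
    have h6 : p.1 < (1 : ℤ) := by exact_mod_cast h4
    omega
  · set c : ℝ × ℝ := (Real.sqrt 2, 1 / 3) with hc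
    obtain ⟨t, ht⟩ := discrete_ivt (fun t => count c ((t : ℝ) * (n + 2))) n (by
        have : inside c (((0 : unitInterval) : ℝ) * (n + 2)) = ∅ := by
          apply Set.eq_empty_of_forall_notMem
          intro p hp
          have hp' : d2 c p < (((0 : unitInterval) : ℝ) * (n + 2)) ^ 2 := hp
          have h0 : 0 ≤ d2 c p := by unfold d2; positivity
          simp at hp'
          linarith
        show count c _ < n
        unfold count
        rw [this]
        simpa using hn) (by
        show n ≤ count c _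
        have : ((1 : unitInterval) : ℝ) * (n + 2) = n + 2 := by simp
        rw [this]
        have := count_lower c (le_refl ((n : ℝ) + 2))
        omega) (by
        intro t
        have hl := local_struct c ((t : ℝ) * (n + 2))
        have hcts : Filter.Tendsto (fun s : unitInterval => (c, (s : ℝ) * (n + 2))) (𝓝 t)
            (𝓝 (c, (t : ℝ) * (n + 2))) := by
          have : Continuous fun s : unitInterval => (c, (s : ℝ) * (n + 2)) := by fun_prop
          exact this.tendsto t
        filter_upwards [hcts.eventually hl] with s hs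
        constructor
        · exact Set.ncard_le_ncard hs.1 (inside_finite _ _)
        · have h1 : (onCircle c ((t : ℝ) * (n + 2))).ncard ≤ 1 := by
            rw [Set.ncard_le_one (onCircle_finite _ _)]
            intro a ha b hb
            have ha' : d2 c a = ((t : ℝ) * (n + 2)) ^ 2 := ha
            have hb' : d2 c b = ((t : ℝ) * (n + 2)) ^ 2 := hb
            exact steinhaus (ha'.trans hb'.symm)
          calc count c ((s : ℝ) * (n + 2)) ≤ (inside c ((t : ℝ) * (n + 2)) ∪ onCircle c ((t : ℝ) * (n + 2))).ncard :=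
                Set.ncard_le_ncard hs.2 ((inside_finite _ _).union (onCircle_finite _ _))
            _ ≤ (inside c ((t : ℝ) * (n + 2))).ncard + (onCircle c ((t : ℝ) * (n + 2))).ncard :=
                Set.ncard_union_le _ _
            _ ≤ count c ((t : ℝ) * (n + 2)) + 1 := by unfold count; omega)
    have ht' : count c ((t : ℝ) * (n + 2)) = n := ht
    refine ⟨(t : ℝ) * (n + 2), ?_, c, ht'⟩
    have h0 : (0 : ℝ) ≤ (t : ℝ) := t.2.1
    rcases h0.lt_or_eq with h | h
    · positivity
    · exfalso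
      have : inside c ((t : ℝ) * (n + 2)) = ∅ := by
        rw [← h]
        apply Set.eq_empty_of_forall_notMem
        intro p hp
        have hp' : d2 c p < ((0 : ℝ) * (n + 2)) ^ 2 := hp
        have h0 : 0 ≤ d2 c p := by unfold d2; positivity
        simp at hp'
        linarith
      unfold count at ht'
      rw [this] at ht'
      simp at ht'
      omega

theorem Rn_pos (n : ℕ) : 0 < Rn n := by
  obtain ⟨R, hR⟩ := enc_nonempty n
  exact lt_of_lt_of_le hR.1 (le_csSup (bddAbove n) hR)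

theorem Rn_le (n : ℕ) : Rn n ≤ n + 2 :=
  csSup_le (enc_nonempty n) fun _ hR => le_of_lt (enc_bound hR)

/-- The limit configuration. -/
theorem limit_config (n : ℕ) : ∃ c : ℝ × ℝ, count c (Rn n) ≤ n ∧
    n ≤ count c (Rn n) + (onCircle c (Rn n)).ncard := by
  obtain ⟨r, -, hr, hmem⟩ := exists_seq_tendsto_sSup (enc_nonempty n) (bddAbove n)
  have hcen : ∀ k, ∃ c : ℝ × ℝ, c ∈ (Set.Icc (0 : ℝ) 1 ×ˢ Set.Icc (0 : ℝ) 1) ∧ count c (r k) = n := by
    intro k
    obtain ⟨-, c, hc⟩ := hmem k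
    refine ⟨(c.1 + ((-⌊c.1⌋ : ℤ) : ℝ), c.2 + ((-⌊c.2⌋ : ℤ) : ℝ)), ?_, ?_⟩
    · have h1 := Int.floor_le c.1
      have h2 := Int.lt_floor_add_one c.1
      have h3 := Int.floor_le c.2
      have h4 := Int.lt_floor_add_one c.2
      push_cast
      refine ⟨⟨?_, ?_⟩, ⟨?_, ?_⟩⟩ <;> simp only <;> linarith
    · rw [count_translate, hc]
  choose c hc1 hc2 using hcen
  have hcomp : IsCompact (Set.Icc (0 : ℝ) 1 ×ˢ Set.Icc (0 : ℝ) 1) := isCompact_Icc.prod isCompact_Icc
  obtain ⟨c₀, -, φ, hφ, hlim⟩ := hcomp.tendsto_subseq hc1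
  have hr' : Tendsto (r ∘ φ) atTop (𝓝 (Rn n)) := hr.comp hφ.tendsto_atTop
  have hpair : Tendsto (fun k => ((c ∘ φ) k, (r ∘ φ) k)) atTop (𝓝 (c₀, Rn n)) :=
    hlim.prodMk_nhds hr'
  obtain ⟨k, hk⟩ := (hpair.eventually (local_struct c₀ (Rn n))).exists
  have hcount : (inside (c (φ k)) (r (φ k))).ncard = n := hc2 (φ k)
  refine ⟨c₀, ?_, ?_⟩
  · calc (inside c₀ (Rn n)).ncard ≤ (inside (c (φ k)) (r (φ k))).ncard :=
          Set.ncard_le_ncard hk.1 (inside_finite _ _)
      _ = n := hcount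
  · calc n = (inside (c (φ k)) (r (φ k))).ncard := hcount.symm
      _ ≤ (inside c₀ (Rn n) ∪ onCircle c₀ (Rn n)).ncard :=
          Set.ncard_le_ncard hk.2 ((inside_finite _ _).union (onCircle_finite _ _))
      _ ≤ (inside c₀ (Rn n)).ncard + (onCircle c₀ (Rn n)).ncard := Set.ncard_union_le _ _

/-- If some circle of a radius larger than `R_n` encloses fewer than `n` points, contradiction. -/
theorem no_smaller {n : ℕ} {S : ℝ} (hS : Rn n < S) {c₀ : ℝ × ℝ} : n < count c₀ S := by
  by_contra hcon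
  push Not at hcon
  rcases hcon.lt_or_eq with h | h
  · obtain ⟨r, hr⟩ := enc_nonempty n
    obtain ⟨hr0, c₁, hc₁⟩ := hr
    have hrR : r ≤ Rn n := le_csSup (bddAbove n) ⟨hr0, c₁, hc₁⟩
    set R := (Rn n + S) / 2 with hRdef
    have hR1 : Rn n < R := by rw [hRdef]; linarith
    have hR2 : R < S := by rw [hRdef]; linarith
    have hR0 : 0 < R := lt_trans (Rn_pos n) hR1
    obtain ⟨c, hc⟩ := cross hR0 hR2 h (by
      rw [← hc₁]
      exact count_mono c₁ hr0.le (by linarith))
    have : R ≤ Rn n := le_csSup (bddAbove n) ⟨hR0, c, hc⟩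
    linarith
  · have : S ≤ Rn n := le_csSup (bddAbove n) ⟨lt_trans (Rn_pos n) hS, c₀, h⟩
    linarith

/-- A non-MC integer: the limit circle encloses an MC number of lattice points. -/
theorem main_step {n : ℕ} (hn : ¬ MC n) : ∃ c : ℝ × ℝ, count c (Rn n) < n ∧
    n ≤ count c (Rn n) + (onCircle c (Rn n)).ncard ∧ MC (count c (Rn n)) := by
  obtain ⟨c, h1, h2⟩ := limit_config n
  have hlt : count c (Rn n) < n := by
    rcases h1.lt_or_eq with h | h
    · exact h
    · exact absurd ⟨Rn_pos n, c, h⟩ hn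
  refine ⟨c, hlt, h2, ?_⟩
  set m := count c (Rn n) with hm
  by_contra hmc
  have hle : Rn n ≤ Rn m := le_csSup (bddAbove m) ⟨Rn_pos n, c, hm.symm⟩
  have hlt2 : Rn n < Rn m := by
    rcases hle.lt_or_eq with h | h
    · exact h
    · exfalso
      apply hmc
      exact ⟨Rn_pos m, c, by rw [← h]⟩
  obtain ⟨S, hS, hS2⟩ := exists_lt_of_lt_csSup (enc_nonempty m) hlt2
  obtain ⟨-, c₀, hc₀⟩ := hS
  have := no_smaller (c₀ := c₀) hS2
  omega

end Pool.Agent.MCG
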